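import Pool.Agent.H30.AV.Targets

/-!
# TRQ: the transcendence degree drops
-/

set_option autoImplicit false

namespace Pool.Agent.H34.AV

open MvPolynomial SC Pool.Agent.H27.LV Pool.Agent.H30.AV

/-- a surjection which is not injective between domains lowers the transcendence degree -/
theorem trq_aux (L A B : Type) [Field L] [CommRing A] [IsDomain A] [Algebra L A] [CommRing B]
    [IsDomain B] [Algebra L B] (φ : A →ₐ[L] B) (hφ : Function.Surjective φ) (a : A) (ha : a ≠ 0)
    (ha0 : φ a = 0) : Algebra.trdeg L B + 1 ≤ Algebra.trdeg L A := by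
  obtain ⟨ι, x, hx⟩ := exists_isTranscendenceBasis' L B
  choose y hy using fun i => hφ (x i)
  have hxy : (φ ∘ y : ι → B) = x := funext hy
  have hyi : AlgebraicIndependent L y := AlgebraicIndependent.of_comp φ (by rw [hxy]; exact hx.1)
  have htr : Transcendental (Algebra.adjoin L (Set.range y)) a := by
    intro halg
    obtain ⟨r, hr0, hr⟩ := halg.exists_nonzero_dvd (mem_nonZeroDivisors_of_ne_zero ha)
    have h1 : φ (r : A) = 0 := by
      obtain ⟨c, hc⟩ := hr
      change (r : A) = a * c at hc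
      rw [hc, map_mul, ha0, zero_mul]
    have h2 : (r : A) ∈ (aeval (R := L) y).range := by
      rw [← Algebra.adjoin_range_eq_range_aeval]
      exact r.2
    obtain ⟨p, hp⟩ := h2
    have hp' : aeval y p = (r : A) := hp
    have h3 : aeval x p = 0 := by
      rw [← hxy, ← h1, ← hp', MvPolynomial.comp_aeval_apply]
      rfl
    have h4 : p = 0 := (injective_iff_map_eq_zero _).1 hx.1 p h3
    rw [h4, map_zero] at hp'
    exact hr0 (Subtype.ext hp'.symm)
  have h5 := (hyi.option_iff_transcendental a).2 htr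
  have h6 := h5.cardinalMk_le_trdeg
  rw [Cardinal.mk_option, hx.cardinalMk_eq_trdeg] at h6
  exact h6

theorem pf_TRQ : T_TRQ := by
  intro L τ _ _ P Q hP hQ hPQ
  have := hP
  have := hQ
  obtain ⟨g, hgQ, hgP⟩ := Set.exists_of_ssubset (show (P : Set (MvPolynomial τ L)) ⊂ Q from hPQ)
  refine trq_aux L _ _ (Ideal.Quotient.liftₐ P (Ideal.Quotient.mkₐ L Q) (fun a ha =>
    Ideal.Quotient.eq_zero_iff_mem.2 (hPQ.le ha))) ?_ (Ideal.Quotient.mk P g) ?_ ?_
  · intro b
    obtain ⟨c, rfl⟩ := Ideal.Quotient.mk_surjective b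
    exact ⟨Ideal.Quotient.mk P c, rfl⟩
  · rw [Ne, Ideal.Quotient.eq_zero_iff_mem]
    exact hgP
  · exact Ideal.Quotient.eq_zero_iff_mem.2 hgQ

end Pool.Agent.H34.AV
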