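import Pool.Agent.H91.AV.Targets

/-!
# MP_c62aed_lc: row MOC, moments of a sum of independent bounded variables
-/

set_option autoImplicit false

namespace Pool.Agent.H34.AV

open Finset Pool.Agent.H91.AV
open Pool.Agent.H96.KX (psz fac jun PDz prs)

private theorem pow_le_cosh (r : ℕ) (y : ℝ) :
    y ^ (2 * r) ≤ ((2 * r).factorial : ℝ) * Real.cosh y := by
  have h := le_hasSum (Real.hasSum_cosh y) r (fun j _ => by
    have : 0 ≤ y ^ (2 * j) := by rw [pow_mul]; positivity
    positivity)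
  have hf : (0 : ℝ) < ((2 * r).factorial : ℝ) := by exact_mod_cast Nat.factorial_pos _
  rw [div_le_iff₀ hf] at h
  linarith

private theorem exp_le_lin (a x : ℝ) (ha : 0 < a) (hx : |x| ≤ a) :
    Real.exp x ≤ Real.cosh a + x * (Real.sinh a / a) := by
  have h1 := abs_le.1 hx
  have w1 : 0 ≤ (a - x) / (2 * a) := div_nonneg (by linarith) (by linarith)
  have w2 : 0 ≤ (a + x) / (2 * a) := div_nonneg (by linarith) (by linarith)
  have w3 : (a - x) / (2 * a) + (a + x) / (2 * a) = 1 := by field_simp; ring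
  have hc := convexOn_exp.2 (Set.mem_univ (-a)) (Set.mem_univ a) w1 w2 w3
  have e1 : ((a - x) / (2 * a)) • (-a) + ((a + x) / (2 * a)) • a = x := by
    simp only [smul_eq_mul]
    field_simp
    ring
  rw [e1] at hc
  refine hc.trans (le_of_eq ?_)
  rw [Real.cosh_eq, Real.sinh_eq]
  simp only [smul_eq_mul]
  field_simp
  ring

private theorem hoeff {Z : Type} [Fintype Z] (x : Z → ℝ) (a : ℝ) (h0 : ∑ z, x z = 0)
    (hx : ∀ z, |x z| ≤ a) (t : ℝ) :
    ∑ z, Real.exp (t * x z) ≤ (Fintype.card Z : ℝ) * Real.exp (t ^ 2 * a ^ 2 / 2) := by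
  rcases isEmpty_or_nonempty Z with hZ | hZ
  · simp
  obtain ⟨z0⟩ := hZ
  have ha : 0 ≤ a := (abs_nonneg _).trans (hx z0)
  rcases (mul_nonneg (abs_nonneg t) ha).eq_or_lt with hta | hta
  · have hz : ∀ z, t * x z = 0 := by
      intro z
      have : |t * x z| ≤ 0 := by
        rw [abs_mul, hta]
        exact mul_le_mul_of_nonneg_left (hx z) (abs_nonneg t)
      exact abs_eq_zero.1 (le_antisymm this (abs_nonneg _))
    have h1 : (1 : ℝ) ≤ Real.exp (t ^ 2 * a ^ 2 / 2) := Real.one_le_exp (by positivity)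
    calc ∑ z, Real.exp (t * x z) = ∑ _z : Z, (1 : ℝ) := by
          refine sum_congr rfl fun z _ => ?_
          rw [hz z, Real.exp_zero]
      _ = (Fintype.card Z : ℝ) * 1 := by simp
      _ ≤ _ := mul_le_mul_of_nonneg_left h1 (by positivity)
  · set b := |t| * a with hb
    have h1 : ∀ z, Real.exp (t * x z) ≤ Real.cosh b + (t * x z) * (Real.sinh b / b) := by
      intro z
      refine exp_le_lin b (t * x z) hta ?_
      rw [abs_mul]
      exact mul_le_mul_of_nonneg_left (hx z) (abs_nonneg t)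
    calc ∑ z, Real.exp (t * x z) ≤ ∑ z, (Real.cosh b + (t * x z) * (Real.sinh b / b)) :=
          sum_le_sum fun z _ => h1 z
      _ = (Fintype.card Z : ℝ) * Real.cosh b := by
          rw [sum_add_distrib, ← sum_mul, ← mul_sum, h0]
          simp
      _ ≤ (Fintype.card Z : ℝ) * Real.exp (t ^ 2 * a ^ 2 / 2) := by
          refine mul_le_mul_of_nonneg_left ?_ (by positivity)
          have h2 := Real.cosh_le_exp_half_sq b
          have h3 : b ^ 2 = t ^ 2 * a ^ 2 := by rw [hb, mul_pow, sq_abs]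
          rwa [h3] at h2

private theorem expsum {V Z : Type} [Fintype V] [DecidableEq V] [Fintype Z]
    (X : V → Z → ℝ) (c : V → ℝ) (h0 : ∀ v, ∑ z, X v z = 0) (hX : ∀ v z, |X v z| ≤ c v)
    (t : ℝ) : ∑ s : V → Z, Real.exp (t * ∑ v, X v (s v)) ≤
      (Fintype.card Z : ℝ) ^ Fintype.card V * Real.exp (t ^ 2 * (∑ v, c v ^ 2) / 2) := by
  have e1 : ∑ s : V → Z, Real.exp (t * ∑ v, X v (s v)) =
      ∏ v, ∑ z, Real.exp (t * X v z) := by
    rw [Finset.prod_univ_sum, Fintype.piFinset_univ]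
    refine sum_congr rfl fun s _ => ?_
    rw [mul_sum, Real.exp_sum]
  rw [e1]
  have e2 : (Fintype.card Z : ℝ) ^ Fintype.card V * Real.exp (t ^ 2 * (∑ v, c v ^ 2) / 2) =
      ∏ v, ((Fintype.card Z : ℝ) * Real.exp (t ^ 2 * c v ^ 2 / 2)) := by
    rw [prod_mul_distrib, prod_const, ← Real.exp_sum, Finset.card_univ]
    congr 2
    rw [mul_sum, sum_div]
  rw [e2]
  exact prod_le_prod (fun v _ => sum_nonneg fun z _ => (Real.exp_pos _).le)
    fun v _ => hoeff (X v) (c v) (h0 v) (hX v) t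

theorem pf_MOC : S_MOC := by
  intro V Z _ _ _ r X c h0 hX
  have hA : 0 ≤ ∑ v, c v ^ 2 := sum_nonneg fun v _ => sq_nonneg _
  have hcard : ((univ : Finset (V → Z)).card : ℝ) = (Fintype.card Z : ℝ) ^ Fintype.card V := by
    rw [Finset.card_univ, Fintype.card_fun]
    push_cast
    rfl
  have hf : (1 : ℝ) ≤ ((2 * r).factorial : ℝ) := by exact_mod_cast Nat.factorial_pos _
  rcases hA.eq_or_lt with hA0 | hA0
  · have hc : ∀ v, c v = 0 := by
      intro v
      have := (sum_eq_zero_iff_of_nonneg (fun v _ => sq_nonneg (c v))).1 hA0.symm v (mem_univ v)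
      exact pow_eq_zero_iff (two_ne_zero) |>.1 this
    have hx0 : ∀ v z, X v z = 0 := by
      intro v z
      have := hX v z
      rw [hc v] at this
      exact abs_eq_zero.1 (le_antisymm this (abs_nonneg _))
    have hs : ∀ s : V → Z, ∑ v, X v (s v) = 0 := fun s => sum_eq_zero fun v _ => hx0 v (s v)
    rw [← hA0]
    simp only [hs]
    rw [sum_const, nsmul_eq_mul, hcard, mul_assoc]
    refine mul_le_mul_of_nonneg_left ?_ (by positivity)
    rcases Nat.eq_zero_or_pos r with hr | hr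
    · subst hr
      norm_num
    · rw [zero_pow (by omega), zero_pow (by omega)]
      simp
  · set A := ∑ v, c v ^ 2 with hAdef
    set sg := Real.sqrt A with hsg
    have hsgpos : 0 < sg := Real.sqrt_pos.2 hA0
    have hsg2 : sg ^ 2 = A := Real.sq_sqrt hA
    have hp := expsum X c h0 hX (1 / sg)
    have hm := expsum X c h0 hX (-(1 / sg))
    rw [← hAdef] at hp hm
    have e1 : (1 / sg) ^ 2 * A / 2 = 1 / 2 := by
      rw [← hsg2]; field_simp
    have e2 : (-(1 / sg)) ^ 2 * A / 2 = 1 / 2 := by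
      rw [neg_sq, e1]
    rw [e1] at hp
    rw [e2] at hm
    have he : Real.exp (1 / 2) ≤ 2 := by
      have h1 : Real.exp (1 / 2) ^ 2 = Real.exp 1 := by
        rw [← Real.exp_nat_mul]; norm_num
      have h2 := Real.exp_one_lt_d9
      have h3 : 0 < Real.exp (1 / 2 : ℝ) := Real.exp_pos _
      nlinarith
    have hQ : (0 : ℝ) ≤ (Fintype.card Z : ℝ) ^ Fintype.card V := by positivity
    have hcosh : ∑ s : V → Z, Real.cosh ((∑ v, X v (s v)) / sg) ≤
        (Fintype.card Z : ℝ) ^ Fintype.card V * 2 := by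
      have e3 : ∀ s : V → Z, Real.cosh ((∑ v, X v (s v)) / sg) =
          (Real.exp (1 / sg * ∑ v, X v (s v)) + Real.exp (-(1 / sg) * ∑ v, X v (s v))) / 2 := by
        intro s
        rw [Real.cosh_eq]
        congr 3 <;> ring
      simp only [e3]
      rw [← sum_div, sum_add_distrib]
      have h4 : (Fintype.card Z : ℝ) ^ Fintype.card V * Real.exp (1 / 2) ≤
          (Fintype.card Z : ℝ) ^ Fintype.card V * 2 := mul_le_mul_of_nonneg_left he hQ
      linarith
    have h5 : ∀ s : V → Z, (∑ v, X v (s v)) ^ (2 * r) ≤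
        A ^ r * (((2 * r).factorial : ℝ) * Real.cosh ((∑ v, X v (s v)) / sg)) := by
      intro s
      have h6 := pow_le_cosh r ((∑ v, X v (s v)) / sg)
      rw [div_pow, pow_mul sg, hsg2, div_le_iff₀ (pow_pos hA0 r)] at h6
      linarith
    calc ∑ s : V → Z, (∑ v, X v (s v)) ^ (2 * r)
        ≤ ∑ s : V → Z, A ^ r * (((2 * r).factorial : ℝ) *
          Real.cosh ((∑ v, X v (s v)) / sg)) := sum_le_sum fun s _ => h5 s
      _ = A ^ r * ((2 * r).factorial : ℝ) * ∑ s : V → Z,
          Real.cosh ((∑ v, X v (s v)) / sg) := by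
          rw [mul_sum]
          exact sum_congr rfl fun s _ => by ring
      _ ≤ A ^ r * ((2 * r).factorial : ℝ) * ((Fintype.card Z : ℝ) ^ Fintype.card V * 2) :=
          mul_le_mul_of_nonneg_left hcosh (by positivity)
      _ = (Fintype.card Z : ℝ) ^ Fintype.card V * (2 * ((2 * r).factorial : ℝ)) * A ^ r := by
          ring

end Pool.Agent.H34.AV
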