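import Pool.Agent.H91.AV.Targets

/-!
# MP_c62aed_lc: row MOM, moments over all hash functions
-/

set_option autoImplicit false

namespace Pool.Agent.H34.AV

open Finset Pool.Agent.H91.AV
open Pool.Agent.H96.KX (psz fac jun PDz prs)

theorem pf_MOM (hM : S_MOC) : S_MOM := by
  intro p _ V _ _ r g hg θ
  have hcp : (Fintype.card (ZMod p) : ℝ) = (p : ℝ) := by rw [ZMod.card]
  have hp : (0 : ℝ) ≤ (p : ℝ) := Nat.cast_nonneg p
  let X : V → ZMod p → ℝ := fun v y => (p : ℝ) * g (θ - y, v) - ∑ z, g (z, v)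
  let G : V → ℝ := fun v => Real.sqrt (∑ z, g (z, v) ^ 2)
  have hG0 : ∀ v, 0 ≤ G v := fun v => Real.sqrt_nonneg _
  have hGs : ∀ v, G v ^ 2 = ∑ z, g (z, v) ^ 2 := fun v =>
    Real.sq_sqrt (sum_nonneg fun z _ => sq_nonneg _)
  have hgG : ∀ v z, g (z, v) ≤ G v := by
    intro v z
    refine Real.le_sqrt_of_sq_le ?_
    exact single_le_sum (f := fun z => g (z, v) ^ 2) (fun z _ => sq_nonneg _) (mem_univ z)
  have h0 : ∀ v, ∑ y, X v y = 0 := by
    intro v
    show ∑ y, ((p : ℝ) * g (θ - y, v) - ∑ z, g (z, v)) = 0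
    have e : ∑ y : ZMod p, g (θ - y, v) = ∑ z, g (z, v) :=
      (Equiv.subLeft θ).sum_comp fun z => g (z, v)
    rw [sum_sub_distrib, ← mul_sum, e, sum_const, Finset.card_univ, nsmul_eq_mul, hcp, sub_self]
  have hX : ∀ v y, |X v y| ≤ (p : ℝ) * G v := by
    intro v y
    have a1 : (p : ℝ) * g (θ - y, v) ≤ (p : ℝ) * G v := mul_le_mul_of_nonneg_left (hgG v _) hp
    have a2 : 0 ≤ (p : ℝ) * g (θ - y, v) := mul_nonneg hp (hg _)
    have a3 : ∑ z, g (z, v) ≤ (p : ℝ) * G v := by
      calc ∑ z, g (z, v) ≤ ∑ _z : ZMod p, G v := sum_le_sum fun z _ => hgG v z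
        _ = (p : ℝ) * G v := by rw [sum_const, Finset.card_univ, nsmul_eq_mul, hcp]
    have a4 : 0 ≤ ∑ z, g (z, v) := sum_nonneg fun z _ => hg _
    rw [abs_le]
    constructor
    · show -((p : ℝ) * G v) ≤ (p : ℝ) * g (θ - y, v) - ∑ z, g (z, v)
      linarith
    · show (p : ℝ) * g (θ - y, v) - ∑ z, g (z, v) ≤ (p : ℝ) * G v
      linarith
  have key : ∀ s : V → ZMod p, (Fintype.card (ZMod p) : ℝ) *
      (∑ u, if hs p V s u = θ then g u else 0) - ∑ u, g u = ∑ v, X v (s v) := by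
    intro s
    rw [hcp, Fintype.sum_prod_type_right, Fintype.sum_prod_type_right, mul_sum,
      ← sum_sub_distrib]
    refine sum_congr rfl fun v _ => ?_
    have e : (∑ z : ZMod p, if hs p V s (z, v) = θ then g (z, v) else 0) = g (θ - s v, v) := by
      rw [sum_eq_single (θ - s v)]
      · rw [if_pos]
        show θ - s v + s v = θ
        exact sub_add_cancel _ _
      · intro z _ hz
        rw [if_neg]
        intro h
        apply hz
        have h' : z + s v = θ := h
        rw [← h', add_sub_cancel_right]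
      · intro h
        exact absurd (mem_univ _) h
    rw [e]
  have h1 := hM V (ZMod p) r X (fun v => (p : ℝ) * G v) h0 hX
  have hS : ∑ v, ((p : ℝ) * G v) ^ 2 = (p : ℝ) ^ 2 * ∑ u, g u ^ 2 := by
    rw [Fintype.sum_prod_type_right, mul_sum]
    refine sum_congr rfl fun v _ => ?_
    rw [mul_pow, hGs]
  have hH : (Fintype.card (V → ZMod p) : ℝ) = (Fintype.card (ZMod p) : ℝ) ^ Fintype.card V := by
    rw [Fintype.card_fun]
    push_cast
    rfl
  simp only [key]
  refine h1.trans (le_of_eq ?_)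
  rw [hS, hH, mul_pow, ← pow_mul]
  ring

end Pool.Agent.H34.AV
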